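import Mathlib
import Pool.Agent.H990R2.CTFam

set_option autoImplicit false

open Finset Filter Topology

namespace Pool.Agent.Results.MP_d1aba8_pr.TypicalStartNoCutoff

noncomputable section

variable {V : Type} [Fintype V] [DecidableEq V]

/-- `Q` is the generator of an irreducible continuous-time Markov chain on the finite set `V`
with stationary distribution `π`. -/
structure IsChain (Q : Matrix V V ℝ) (π : V → ℝ) : Prop where
  offdiag : ∀ x y, x ≠ y → 0 ≤ Q x y
  row : ∀ x, ∑ y, Q x y = 0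
  irreducible : ∀ x y, Relation.ReflTransGen (fun a b => a ≠ b ∧ 0 < Q a b) x y
  nonneg : ∀ x, 0 ≤ π x
  total : ∑ x, π x = 1
  stationary : Matrix.vecMul π Q = 0

/-- Law of `X_t` under `P_x`: row `x` of `exp (t Q)`. -/
def law (Q : Matrix V V ℝ) (t : ℝ) (x : V) : V → ℝ := fun y => NormedSpace.exp (t • Q) x y

/-- Total variation distance `‖μ - ν‖ = sup_A |μ(A) - ν(A)|`. -/
def tvDist (μ ν : V → ℝ) : ℝ := ⨆ A : Finset V, |∑ x ∈ A, μ x - ∑ x ∈ A, ν x|

/-- `τ_x = inf {t ≥ 0 : ‖P_x(X_t ∈ ·) - π‖ ≤ 1/4}`. -/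
def tau (Q : Matrix V V ℝ) (π : V → ℝ) (x : V) : ℝ :=
  sInf {t : ℝ | 0 ≤ t ∧ tvDist (law Q t x) π ≤ 1 / 4}

open Classical in
/-- `π {x : A x}`. -/
def prob (π : V → ℝ) (A : V → Prop) : ℝ := ∑ x, if A x then π x else 0

/-- `m` is a median of `τ_x` when `x` is drawn from `π`. -/
def IsMedian (Q : Matrix V V ℝ) (π : V → ℝ) (m : ℝ) : Prop :=
  1 / 2 ≤ prob π (fun x => tau Q π x ≤ m) ∧ 1 / 2 ≤ prob π (fun x => m ≤ tau Q π x)

/-- The relaxation time `τ₂ = 1/λ`, where `λ` is the smallest real part of a nonzero (complex)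
eigenvalue of `-Q`. -/
def tau2 (Q : Matrix V V ℝ) : ℝ :=
  1 / sInf {r : ℝ | ∃ z ∈ spectrum ℂ (-(Q.map Complex.ofReal)), z ≠ 0 ∧ r = z.re}

theorem tvDist_eq (μ ν : V → ℝ) (h : ∑ x, μ x = ∑ x, ν x) :
    tvDist μ ν = (1 / 2 : ℝ) * ∑ x, |μ x - ν x| := by
  have hsum : ∑ x, (μ x - ν x) = 0 := by rw [Finset.sum_sub_distrib, h, sub_self]
  apply le_antisymm
  · refine ciSup_le fun A => ?_
    have h1 : ∑ x ∈ A, (μ x - ν x) + ∑ x ∈ Aᶜ, (μ x - ν x) = 0 := by
      rw [Finset.sum_add_sum_compl, hsum]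
    have h2 : |∑ x ∈ A, (μ x - ν x)| ≤ ∑ x ∈ A, |μ x - ν x| := Finset.abs_sum_le_sum_abs _ _
    have h3 : |∑ x ∈ Aᶜ, (μ x - ν x)| ≤ ∑ x ∈ Aᶜ, |μ x - ν x| := Finset.abs_sum_le_sum_abs _ _
    have h4 : ∑ x ∈ Aᶜ, (μ x - ν x) = -∑ x ∈ A, (μ x - ν x) := by linarith
    rw [h4, abs_neg] at h3
    have h5 : ∑ x ∈ A, |μ x - ν x| + ∑ x ∈ Aᶜ, |μ x - ν x| = ∑ x, |μ x - ν x| :=
      Finset.sum_add_sum_compl _ _
    rw [← Finset.sum_sub_distrib]
    linarith
  · set A : Finset V := univ.filter fun x => 0 ≤ μ x - ν x with hA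
    have h1 : ∑ x ∈ A, (μ x - ν x) + ∑ x ∈ Aᶜ, (μ x - ν x) = 0 := by
      rw [Finset.sum_add_sum_compl, hsum]
    have h5 : ∑ x ∈ A, |μ x - ν x| + ∑ x ∈ Aᶜ, |μ x - ν x| = ∑ x, |μ x - ν x| :=
      Finset.sum_add_sum_compl _ _
    have h6 : ∑ x ∈ A, |μ x - ν x| = ∑ x ∈ A, (μ x - ν x) :=
      Finset.sum_congr rfl fun x hx => abs_of_nonneg (by simpa [hA] using hx)
    have h7 : ∑ x ∈ Aᶜ, |μ x - ν x| = -∑ x ∈ Aᶜ, (μ x - ν x) := by
      rw [← Finset.sum_neg_distrib]
      exact Finset.sum_congr rfl fun x hx => abs_of_neg (by simpa [hA] using hx)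
    have h8 : (1 / 2 : ℝ) * ∑ x, |μ x - ν x| = ∑ x ∈ A, μ x - ∑ x ∈ A, ν x := by
      rw [← h5, h6, h7, ← Finset.sum_sub_distrib]
      linarith
    rw [h8]
    refine (le_abs_self _).trans ?_
    exact le_ciSup (f := fun A : Finset V => |∑ x ∈ A, μ x - ∑ x ∈ A, ν x|)
      (Set.finite_range _).bddAbove A

section

variable {G : Type} [AddCommGroup G] [Fintype G] [DecidableEq G] {S : Finset G} {T : ℕ}

/-- Generator of the continuous-time simple random walk on `Cay(G, S)`: at rate `1` the walk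
jumps from `x` to `x + s`, with `s` uniform in `S`. -/
def gen (S : Finset G) : Matrix G G ℝ :=
  fun x y => (if y - x ∈ S then 1 / (S.card : ℝ) else 0) - (if x = y then 1 else 0)

/-- The uniform distribution. -/
def unif (G : Type) [Fintype G] : G → ℝ := fun _ => 1 / (Fintype.card G : ℝ)

theorem gen_eq (h : Helper394.Bad S T) :
    gen S = H990R2.CT.srw S h.zero h.neg - 1 := by
  ext x y
  rw [Matrix.sub_apply, Matrix.one_apply]
  simp only [gen, H990R2.CT.srw, Helper394.cay_degree, Helper394.cay_adj]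

omit [DecidableEq G] in
theorem sum_unif : ∑ x, unif G x = 1 := by
  have hG : (0 : ℝ) < Fintype.card G := by exact_mod_cast Fintype.card_pos
  simp only [unif, Finset.sum_const, Finset.card_univ, nsmul_eq_mul]
  field_simp

theorem law_eq (h : Helper394.Bad S T) (t : ℝ) (x : G) :
    law (gen S) t x = H990R2.CT.H (H990R2.CT.srw S h.zero h.neg) t x := by
  funext y
  simp only [law, gen_eq h]
  rfl

theorem tv_eq (h : Helper394.Bad S T) (t : ℝ) (x : G) :
    tvDist (law (gen S) t x) (unif G) =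
      (1 / 2 : ℝ) * ∑ y, |H990R2.CT.H (H990R2.CT.srw S h.zero h.neg) t x y -
        1 / (Fintype.card G : ℝ)| := by
  have hP := H990R2.CT.srw_mulVec S h.zero h.neg
  rw [law_eq h, tvDist_eq]
  · rfl
  · rw [sum_unif, H990R2.CT.H_row (H990R2.CT.P_row h hP)]

theorem tau_eq (h : Helper394.Bad S T) (x : G) :
    tau (gen S) (unif G) x = H990R2.CT.tau0 (H990R2.CT.srw S h.zero h.neg) := by
  simp only [tau, H990R2.CT.tau0, tv_eq h]
  simp only [H990R2.CT.tv_translate (H990R2.CT.srw_mulVec S h.zero h.neg) _ _ x]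

omit [DecidableEq G] in
theorem prob_const (A : G → Prop) (p : Prop) [Decidable p]
    (hA : ∀ x, A x ↔ p) : prob (unif G) A = if p then 1 else 0 := by
  simp only [prob, hA]
  split_ifs
  · exact sum_unif
  · simp

theorem gen_symm (h : Helper394.Bad S T) (x y : G) : gen S x y = gen S y x := by
  have h2 : (y - x ∈ S) ↔ (x - y ∈ S) := by
    constructor
    · intro h3; have := h.neg _ h3; rwa [neg_sub] at this
    · intro h3; have := h.neg _ h3; rwa [neg_sub] at this
  simp only [gen, h2, eq_comm]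

theorem gen_row (h : Helper394.Bad S T) (x : G) : ∑ y, gen S x y = 0 := by
  have h1 := H990R2.CT.P_row h (H990R2.CT.srw_mulVec S h.zero h.neg) x
  rw [gen_eq h]
  simp only [Matrix.sub_apply, Matrix.one_apply]
  rw [Finset.sum_sub_distrib, h1]
  simp

theorem isChain (h : Helper394.Bad S T) : IsChain (gen S) (unif G) where
  offdiag x y hxy := by
    simp only [gen, if_neg hxy, sub_zero]
    split_ifs <;> positivity
  row := gen_row h
  irreducible x y := by
    have h1 := (Helper394.cay_connected h).preconnected x y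
    rw [SimpleGraph.reachable_iff_reflTransGen] at h1
    refine Relation.ReflTransGen.mono (fun a b hab => ?_) x y h1
    have h2 : b - a ∈ S := by
      simpa only [Helper394.cay_adj] using hab
    have h3 : a ≠ b := hab.ne
    refine ⟨h3, ?_⟩
    have hc : (0 : ℝ) < S.card := by exact_mod_cast h.nonempty.card_pos
    simp only [gen, if_pos h2, if_neg h3, sub_zero]
    positivity
  nonneg x := by simp only [unif]; positivity
  total := sum_unif
  stationary := by
    ext y
    simp only [Matrix.vecMul, dotProduct, unif, Pi.zero_apply]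
    rw [← Finset.mul_sum]
    simp only [gen_symm h _ y]
    rw [gen_row h, mul_zero]

theorem tau2_bound (h : Helper394.Bad S T) : 0 < tau2 (gen S) ∧ tau2 (gen S) ≤ 4 := by
  have hP := H990R2.CT.srw_mulVec S h.zero h.neg
  have hge : 1 / 4 ≤ sInf {r : ℝ | ∃ z ∈ spectrum ℂ (-((gen S).map Complex.ofReal)),
      z ≠ 0 ∧ r = z.re} := by
    rw [gen_eq h]
    obtain ⟨z, hz, hz0⟩ := H990R2.CT.specC_nonempty h hP
    apply le_csInf
    · exact ⟨z.re, z, hz, hz0, rfl⟩
    · rintro b ⟨w, hw, hw0, rfl⟩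
      exact H990R2.CT.specC h hP w hw hw0
  have h6 : 0 < tau2 (gen S) := one_div_pos.mpr (by linarith)
  refine ⟨h6, ?_⟩
  rw [tau2, div_le_iff₀ (by linarith)]
  linarith

end

/-- Total variation cutoff from a typical start fails under `τ/τ₂ → ∞`. There are connected
Cayley graphs `Cay(ℤ/N_n, S_n)` (with `N_n → ∞`) such that, for the continuous-time simple random
walk on them, `τ_x` does not depend on `x` (so that its median `τ n` is unique),
`τ₂ ≤ 4 < n/2 < τ n`, and for `ε = 1/2000` the set `{x : ‖P_x(X_{(1-ε)τ} ∈ ·) - π‖ > 1-ε}` is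
empty for every `n`. -/
theorem result :
    ∃ (N : ℕ → ℕ) (_ : ∀ n, NeZero (N n)) (S : ∀ n, Finset (ZMod (N n))) (τ : ℕ → ℝ),
      Tendsto (fun n => Fintype.card (ZMod (N n))) atTop atTop ∧
      (∀ n, 0 ∉ S n ∧ ∀ s ∈ S n, -s ∈ S n) ∧
      (∀ n, IsChain (gen (S n)) (unif (ZMod (N n)))) ∧
      (∀ n x, tau (gen (S n)) (unif (ZMod (N n))) x = τ n) ∧
      (∀ n m, IsMedian (gen (S n)) (unif (ZMod (N n))) m ↔ m = τ n) ∧
      (∀ n, 0 < tau2 (gen (S n)) ∧ tau2 (gen (S n)) ≤ 4 ∧ (n : ℝ) / 2 < τ n) ∧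
      Tendsto (fun n => τ n / tau2 (gen (S n))) atTop atTop ∧
      (∀ n x, tvDist (law (gen (S n)) ((1 - 1 / 2000) * τ n) x) (unif (ZMod (N n))) ≤
        1 - 1 / 2000) ∧
      ¬ Tendsto (fun n => prob (unif (ZMod (N n))) (fun x => 1 - 1 / 2000 <
          tvDist (law (gen (S n)) ((1 - 1 / 2000) * τ n) x) (unif (ZMod (N n))))) atTop (𝓝 1) := by
  choose N hN S hTN hS using fun n : ℕ => Helper394.exists_bad (n + 64) (by omega)
  let P : ∀ n, Matrix (ZMod (N n)) (ZMod (N n)) ℝ := fun n =>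
    H990R2.CT.srw (S n) (hS n).zero (hS n).neg
  have hP : ∀ n, ∀ f : ZMod (N n) → ℝ, (P n).mulVec f = Helper394.U (S n) f :=
    fun n f => H990R2.CT.srw_mulVec (S n) _ _ f
  have hτ : ∀ n : ℕ, ((n : ℝ) + 64) / 2 ≤ H990R2.CT.tau0 (P n) := by
    intro n
    have := H990R2.CT.tau0_ge (hS n) (by omega) (hP n)
    push_cast at this
    exact this
  have hup : ∀ n x, tvDist (law (gen (S n)) ((1 - 1 / 2000) * H990R2.CT.tau0 (P n)) x)
      (unif (ZMod (N n))) ≤ 1 - 1 / 2000 := by
    intro n x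
    rw [tv_eq (hS n)]
    exact H990R2.CT.tv_upper (hS n) (by omega) (hP n)
      (t := (1 - 1 / 2000) * H990R2.CT.tau0 (P n)) (by
        have := hτ n
        have hn : (0 : ℝ) ≤ n := Nat.cast_nonneg n
        push_cast
        linarith) x
  refine ⟨N, hN, S, fun n => H990R2.CT.tau0 (P n), ?_, fun n => ⟨(hS n).zero, (hS n).neg⟩,
    fun n => isChain (hS n), fun n x => tau_eq (hS n) x, ?_, fun n => ⟨(tau2_bound (hS n)).1,
      (tau2_bound (hS n)).2, ?_⟩, ?_, hup, ?_⟩
  · refine tendsto_atTop_mono (fun n => ?_) tendsto_id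
    rw [ZMod.card]
    have := hTN n
    simp only [id]
    omega
  · intro n m
    classical
    rw [IsMedian, prob_const _ (H990R2.CT.tau0 (P n) ≤ m)
        (fun x => by rw [tau_eq (hS n)]),
      prob_const _ (m ≤ H990R2.CT.tau0 (P n)) (fun x => by rw [tau_eq (hS n)])]
    constructor
    · rintro ⟨h1, h2⟩
      have h3 : H990R2.CT.tau0 (P n) ≤ m := by
        by_contra hcon
        rw [if_neg hcon] at h1
        norm_num at h1
      have h4 : m ≤ H990R2.CT.tau0 (P n) := by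
        by_contra hcon
        rw [if_neg hcon] at h2
        norm_num at h2
      exact le_antisymm h4 h3
    · rintro rfl
      rw [if_pos le_rfl]
      norm_num
  · have := hτ n
    change (n : ℝ) / 2 < H990R2.CT.tau0 (P n)
    linarith
  · have h5 : Tendsto (fun n : ℕ => (n : ℝ) / 8) atTop atTop :=
      tendsto_natCast_atTop_atTop.atTop_div_const (by norm_num)
    refine tendsto_atTop_mono (fun n => ?_) h5
    obtain ⟨h6, h7⟩ := tau2_bound (hS n)
    have h8 := hτ n
    have hn : (0 : ℝ) ≤ n := Nat.cast_nonneg n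
    rw [div_le_div_iff₀ (by norm_num) h6]
    nlinarith
  · intro h1
    have h2 : ∀ n, prob (unif (ZMod (N n))) (fun x => 1 - 1 / 2000 <
        tvDist (law (gen (S n)) ((1 - 1 / 2000) * H990R2.CT.tau0 (P n)) x)
          (unif (ZMod (N n)))) = 0 := by
      intro n
      have h3 := prob_const (fun x => 1 - 1 / 2000 <
        tvDist (law (gen (S n)) ((1 - 1 / 2000) * H990R2.CT.tau0 (P n)) x)
          (unif (ZMod (N n)))) False (fun x => by
          rw [iff_false, not_lt]
          exact hup n x)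
      rw [if_neg not_false] at h3
      exact h3
    rw [tendsto_congr h2] at h1
    have := tendsto_nhds_unique h1 tendsto_const_nhds
    norm_num at this

end

end Pool.Agent.Results.MP_d1aba8_pr.TypicalStartNoCutoff
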